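import Pool.Agent.Helper78.JT.Goals
import Pool.Agent.Helper65.DT.TOB
import Pool.Agent.Helper38.DT.BAL
import Pool.Agent.Helper35.DT.LAG
import Pool.Agent.Helper59.DT.HSHINJ

/-! Packet JT-TBJ: dropping the unbalanced terms, for a tuple of decision lists. -/

namespace Pool.Agent.Helper86.JT

open Pool.Agent.Helper78.DT Pool.Agent.Helper78.JT
open scoped Classical

/-- For one list and a fixed assignment: the value changes rarely. -/
theorem one_list (hB : BalStmt) {n P K t e W : ℕ} (hP : P.Prime) (hK : 0 < K) (hKP : K ≤ P)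
    (hn : n ≤ 2 ^ e) (f : DL (Fin n)) (hf : Wid W f) (b : Fin n → Bool) :
    (av fun A : Fin (t + 2) → Fin P =>
      if ev (f.filter (bal K t (pt P K t e (ext A)))) b ≠ ev f b then (1 : ℝ) else 0) ≤
    (W : ℝ) ^ 2 * e / P + (W.choose (t + 1)) * 2 ^ (t + 1) / (K : ℝ) ^ t := by
  have hP0 : 0 < P := hP.pos
  have : Nonempty (Fin P) := ⟨⟨0, hP0⟩⟩
  set B : ℝ := (W : ℝ) ^ 2 * e / P + (W.choose (t + 1)) * 2 ^ (t + 1) / (K : ℝ) ^ t with hBdef
  have hB0 : 0 ≤ B := by positivity
  rcases Pool.Agent.Helper65.DT.first_sat b f with ⟨h1, h2⟩ | ⟨g, hg, hs, h⟩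
  · refine av_le_of_le hB0 fun A => ?_
    rw [h1, h2]
    simpa using hB0
  · set U : Finset ℕ := g.1.image fun p => (p.1 : ℕ) with hU
    have hUlt : ∀ v ∈ U, v < 2 ^ e := by
      intro v hv
      rw [hU, Finset.mem_image] at hv
      obtain ⟨p, _, rfl⟩ := hv
      exact lt_of_lt_of_le p.1.2 hn
    have hUc : U.card ≤ W := Finset.card_image_le.trans (hf g hg)
    refine le_trans ?_ (hB P K t e W hP hK hKP U hUlt hUc)
    rw [pr_eq_av]
    refine av_mono fun A => ?_
    by_cases hb : bal K t (pt P K t e (ext A)) g = true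
    · rw [h _ hb, if_neg (by simp)]
      split_ifs <;> norm_num
    · have hex : ∃ j < K, t < (U.filter fun v => pt P K t e (ext A) v = j).card := by
        unfold bal at hb
        rw [decide_eq_true_iff] at hb
        push Not at hb
        obtain ⟨j, hj, hlt⟩ := hb
        refine ⟨j, hj, lt_of_lt_of_le hlt ?_⟩
        have hinj : Set.InjOn (fun p : Fin n × Bool => (p.1 : ℕ))
            (g.1.filter fun p => pt P K t e (ext A) p.1 = j : Finset (Fin n × Bool)) := by
          intro p hp p' hp' hpp
          rw [Finset.mem_coe, Finset.mem_filter] at hp hp'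
          have e1 : p.1 = p'.1 := Fin.ext hpp
          have e2 : p.2 = p'.2 := by rw [← hs p hp.1, ← hs p' hp'.1, e1]
          exact Prod.ext e1 e2
        rw [← Finset.card_image_of_injOn hinj]
        refine Finset.card_le_card fun v hv => ?_
        rw [Finset.mem_image] at hv
        obtain ⟨p, hp, rfl⟩ := hv
        rw [Finset.mem_filter] at hp ⊢
        exact ⟨Finset.mem_image_of_mem _ hp.1, hp.2⟩
      rw [if_pos hex]
      split_ifs <;> norm_num

/-- The average of a finite sum. -/
theorem av_sum {α : Type} [Fintype α] {r : ℕ} (F : Fin r → α → ℝ) :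
    (av fun a => ∑ i, F i a) = ∑ i, av (F i) := by
  unfold av
  rw [Finset.sum_comm, Finset.sum_div]

theorem tbj_of (hB : BalStmt) : TbjStmt := by
  intro n P K t e W r hP hK hKP hn H f hf
  have hP0 : 0 < P := hP.pos
  have : Nonempty (Fin P) := ⟨⟨0, hP0⟩⟩
  set B : ℝ := (W : ℝ) ^ 2 * e / P + (W.choose (t + 1)) * 2 ^ (t + 1) / (K : ℝ) ^ t with hBdef
  have hB0 : 0 ≤ B := by positivity
  have hrB0 : 0 ≤ (r : ℝ) * B := by positivity
  set D : (Fin (t + 2) → Fin P) → (Fin n → Bool) → ℝ := fun A b =>
    (if H (fun i => ev ((f i).filter (bal K t (pt P K t e (ext A)))) b) = true then (1 : ℝ) else 0)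
      - (if H (fun i => ev (f i) b) = true then (1 : ℝ) else 0) with hD
  have e1 : pr (fun z : (Fin (t + 2) → Fin P) × (Fin n → Bool) =>
        H (fun i => ev ((f i).filter (bal K t (pt P K t e (ext z.1)))) z.2) = true) -
      pr (fun x => H (fun i => ev (f i) x) = true) = av fun b => av fun A => D A b := by
    have h1 : pr (fun z : (Fin (t + 2) → Fin P) × (Fin n → Bool) =>
        H (fun i => ev ((f i).filter (bal K t (pt P K t e (ext z.1)))) z.2) = true) =
        av fun b : Fin n → Bool => av fun A : Fin (t + 2) → Fin P =>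
          if H (fun i => ev ((f i).filter (bal K t (pt P K t e (ext A)))) b) = true then
            (1 : ℝ) else 0 := by
      rw [pr_eq_av, av_prod]
      refine (av_comm (fun (A : Fin (t + 2) → Fin P) (b : Fin n → Bool) => _)).trans ?_
      refine av_congr fun b => av_congr fun A => ?_
      split_ifs <;> rfl
    have h2 : pr (fun x => H (fun i => ev (f i) x) = true) =
        av fun b : Fin n → Bool => av fun _ : Fin (t + 2) → Fin P =>
          if H (fun i => ev (f i) b) = true then (1 : ℝ) else 0 := by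
      rw [pr_eq_av]
      refine av_congr fun b => ?_
      rw [av_const]
      split_ifs <;> rfl
    rw [h1, h2, ← av_sub]
    refine av_congr fun b => ?_
    rw [← av_sub]
  rw [e1]
  refine (abs_av_le _).trans (av_le_of_le hrB0 fun b => ?_)
  refine (abs_av_le _).trans ?_
  have h3 : ∀ A : Fin (t + 2) → Fin P, |D A b| ≤ ∑ i : Fin r,
      if ev ((f i).filter (bal K t (pt P K t e (ext A)))) b ≠ ev (f i) b then (1 : ℝ) else 0 := by
    intro A
    by_cases hall : ∀ i, ev ((f i).filter (bal K t (pt P K t e (ext A)))) b = ev (f i) b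
    · have h4 : (fun i => ev ((f i).filter (bal K t (pt P K t e (ext A)))) b) =
          fun i => ev (f i) b := funext hall
      simp only [hD, h4, sub_self, abs_zero]
      refine Finset.sum_nonneg fun i _ => ?_
      split_ifs <;> norm_num
    · push Not at hall
      obtain ⟨i, hi⟩ := hall
      have h5 : (1 : ℝ) ≤ ∑ i : Fin r,
          if ev ((f i).filter (bal K t (pt P K t e (ext A)))) b ≠ ev (f i) b then (1 : ℝ)
          else 0 := by
        have h6 := Finset.single_le_sum (f := fun i : Fin r =>
          if ev ((f i).filter (bal K t (pt P K t e (ext A)))) b ≠ ev (f i) b then (1 : ℝ)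
          else 0) (fun i _ => by split_ifs <;> norm_num) (Finset.mem_univ i)
        simp only [if_pos hi] at h6
        exact h6
      refine le_trans ?_ h5
      simp only [hD]
      split_ifs <;> norm_num
  refine (av_mono h3).trans ?_
  rw [av_sum]
  calc (∑ i : Fin r, av fun A : Fin (t + 2) → Fin P =>
        if ev ((f i).filter (bal K t (pt P K t e (ext A)))) b ≠ ev (f i) b then (1 : ℝ) else 0)
      ≤ ∑ _i : Fin r, B :=
        Finset.sum_le_sum fun i _ => one_list hB hP hK hKP hn (f i) (hf i) b
    _ = r * B := by simp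

/-- Packet JT-TBJ. -/
theorem tbj : TbjStmt :=
  tbj_of (Pool.Agent.Helper38.DT.bal Pool.Agent.Helper35.DT.lag
    (Pool.Agent.Helper59.DT.inj Pool.Agent.Helper59.DT.hsh))

end Pool.Agent.Helper86.JT
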